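import Pool.Agent.Helper622.Tri.Class

/-!
# Universal polytopes of type {3,6,3}: all parameters except both of the form (·,0)

For all admissible `(s,t), (u,v)` with `(t,v) ≠ (0,0)` the existence of a regular 4-polytope with
facets `{3,6}_(s,t)` and vertex-figures `{6,3}_(u,v)` is decided, and, with three exceptions, also
whether there is an infinite one, i.e. whether the universal polytope is infinite.
-/

namespace Pool.Agent.Results.MP_6b3afb_co.MixedClassification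

open Pool.Agent.Helper622 Pool.Agent.Helper622.Tri

/-- There is a regular 4-polytope with facets `{3,6}_(s,t)` and vertex-figures `{6,3}_(u,v)`. -/
def PolytopeExists (s t u v : ℕ) : Prop :=
  ∃ (P : Type) (_ : PartialOrder P) (X : AbstractPolytope 4 P), X.IsRegular ∧
    (∀ F : P, X.rank F = 3 → Nonempty (Tor36 (latt s t) ≃o Set.Iic F)) ∧
    (∀ w : P, X.rank w = 0 → Nonempty ((Tor36 (latt u v))ᵒᵈ ≃o Set.Ici w))

/-- There is an infinite regular 4-polytope with facets `{3,6}_(s,t)` and vertex-figures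
`{6,3}_(u,v)`. -/
def InfinitePolytopeExists (s t u v : ℕ) : Prop :=
  ∃ (P : Type) (_ : PartialOrder P) (X : AbstractPolytope 4 P), X.IsRegular ∧
    (∀ F : P, X.rank F = 3 → Nonempty (Tor36 (latt s t) ≃o Set.Iic F)) ∧
    (∀ w : P, X.rank w = 0 → Nonempty ((Tor36 (latt u v))ᵒᵈ ≃o Set.Ici w)) ∧
    Infinite P

/-- The admissible parameters. -/
def Admissible (s t : ℕ) : Prop := (2 ≤ s ∧ t = 0) ∨ (1 ≤ s ∧ t = s)

/-- The number of vertices of `{3,6}_(s,t)`. -/
def vertices (s t : ℕ) : ℕ := s ^ 2 + s * t + t ^ 2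

theorem v_zero (s : ℕ) : vertices s 0 = s ^ 2 := by simp [vertices]

theorem v_diag (s : ℕ) : vertices s s = 3 * s ^ 2 := by simp [vertices]; ring

theorem sq_iff (s k : ℕ) : k ^ 2 ≤ s ^ 2 ↔ k ≤ s :=
  ⟨fun h => le_of_not_gt fun h' => absurd h (not_le.2 (Nat.pow_lt_pow_left h' (by norm_num))),
    fun h => Nat.pow_le_pow_left h 2⟩

theorem sq_eq (s k : ℕ) : s ^ 2 = k ^ 2 ↔ s = k := by
  constructor
  · intro h
    exact le_antisymm ((sq_iff k s).1 h.le) ((sq_iff s k).1 h.ge)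
  · rintro rfl
    rfl

theorem z9 (s : ℕ) : 9 ≤ s ^ 2 ↔ 3 ≤ s := sq_iff s 3
theorem z4' (s : ℕ) : s ^ 2 = 4 ↔ s = 2 := sq_eq s 2
theorem z9' (s : ℕ) : s ^ 2 = 9 ↔ s = 3 := sq_eq s 3
theorem nsq {s k m : ℕ} (h1 : k ^ 2 < m) (h2 : m < (k + 1) ^ 2) : s ^ 2 ≠ m := by
  rintro rfl
  have h3 : ¬ s ≤ k := fun h => absurd ((sq_iff k s).2 h) (not_le.2 h1)
  have h4 : ¬ k + 1 ≤ s := fun h => absurd ((sq_iff s (k + 1)).2 h) (not_le.2 h2)
  omega

theorem d9 (s : ℕ) : 9 ≤ 3 * s ^ 2 ↔ 2 ≤ s := by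
  rw [← sq_iff s 2]
  constructor
  · intro h
    by_contra h'
    have h3 : s ^ 2 = 3 := by omega
    exact nsq (k := 1) (by norm_num) (by norm_num) h3
  · intro h; omega
theorem d3' (s : ℕ) : 3 * s ^ 2 = 3 ↔ s = 1 := by rw [← sq_eq s 1]; omega
theorem d12' (s : ℕ) : 3 * s ^ 2 = 12 ↔ s = 2 := by rw [← sq_eq s 2]; omega
theorem d27' (s : ℕ) : 3 * s ^ 2 = 27 ↔ s = 3 := by rw [← sq_eq s 3]; omega
theorem d9' (s : ℕ) : 3 * s ^ 2 ≠ 9 := by
  intro h
  exact nsq (s := s) (k := 1) (m := 3) (by norm_num) (by norm_num) (by omega)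
theorem d4' (s : ℕ) : 3 * s ^ 2 ≠ 4 := by omega
theorem z3' (s : ℕ) : s ^ 2 ≠ 3 := nsq (k := 1) (by norm_num) (by norm_num)
theorem z12' (s : ℕ) : s ^ 2 ≠ 12 := nsq (k := 3) (by norm_num) (by norm_num)
theorem z27' (s : ℕ) : s ^ 2 ≠ 27 := nsq (k := 5) (by norm_num) (by norm_num)

theorem result (s t u v : ℕ) (h1 : Admissible s t) (h2 : Admissible u v)
    (h3 : ¬(t = 0 ∧ v = 0)) :
    (PolytopeExists s t u v ↔ (9 ≤ vertices s t ∧ 9 ≤ vertices u v) ∨
      (vertices s t, vertices u v) ∈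
        ({(3, 3), (3, 9), (9, 3), (4, 12), (12, 4)} : Set (ℕ × ℕ))) ∧
    ((vertices s t, vertices u v) ∉ ({(12, 12), (12, 27), (27, 12)} : Set (ℕ × ℕ)) →
      (InfinitePolytopeExists s t u v ↔ (9 ≤ vertices s t ∧ 9 ≤ vertices u v) ∧
        (vertices s t, vertices u v) ∉ ({(9, 12), (12, 9)} : Set (ℕ × ℕ)))) := by
  simp only [Set.mem_insert_iff, Set.mem_singleton_iff, Prod.mk.injEq]
  rcases h1 with ⟨hs, rfl⟩ | ⟨hs, ht⟩
  · rcases h2 with ⟨-, rfl⟩ | ⟨hu, hv⟩
    · exact absurd ⟨rfl, rfl⟩ h3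
    · have e := ex_iff_A hs hu
      have e' := exInf_iff_A hs hu
      rw [hv, v_zero, v_diag, z9, d9, d3', d12', z9', z4', d27']
      have a1 := z3' s
      have a2 := z12' s
      have a3 := z27' s
      have a4 := d9' u
      have a5 := d4' u
      exact ⟨e.trans (by omega), fun _ => e'.trans (by omega)⟩
  · rcases h2 with ⟨hu, rfl⟩ | ⟨hu, hv⟩
    · have e := (ex_symm (dq_diag hs) (dq_zero hu)).trans (ex_iff_A hu hs)
      have e' := (exInf_symm (dq_diag hs) (dq_zero hu)).trans (exInf_iff_A hu hs)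
      rw [ht, v_zero, v_diag, z9, d9, d3', d12', z9', z4', d27']
      have a1 := z3' u
      have a2 := z12' u
      have a3 := z27' u
      have a4 := d9' s
      have a5 := d4' s
      exact ⟨e.trans (by omega), fun _ => e'.trans (by omega)⟩
    · have e := ex_iff_C hs hu
      have e1 : ExInf (latt s s) (latt u u) → 2 ≤ s ∧ 2 ≤ u := by
        intro h
        rcases e.1 (ExInf.ex h) with h1 | ⟨rfl, rfl⟩
        · exact h1
        · exact absurd h not_exInf_C11
      rw [ht, hv, v_diag, v_diag, d9, d9, d3', d3', d12', d12', d27', d27']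
      have a1 := d9' s
      have a2 := d9' u
      have a3 := d4' s
      have a4 := d4' u
      refine ⟨e.trans (by omega), fun hn => ⟨fun h => ?_, fun h => ?_⟩⟩
      · have := e1 h
        omega
      · exact exInf_C h.1.1 h.1.2 (by omega)

end Pool.Agent.Results.MP_6b3afb_co.MixedClassification
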